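import Mathlib

/-! Digit replacement and the radical inverse. -/

set_option autoImplicit false

open Finset

namespace Pool.Agent.Q83.Beu

/-- replace base `q` by base `p` -/
def can (p q : ℕ) (n : ℕ) : ℕ := Nat.ofDigits p (q.digits n)

/-- the radical inverse -/
noncomputable def rad (q : ℕ) (n : ℕ) : ℝ := Nat.ofDigits ((q : ℝ)⁻¹) (q.digits n) / q

variable {p q : ℕ}

theorem ofD_nil (b : ℝ) : Nat.ofDigits b [] = 0 := rfl

theorem ofD_cons (b : ℝ) (a : ℕ) (l : List ℕ) :
    Nat.ofDigits b (a :: l) = a + b * Nat.ofDigits b l := rfl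

theorem can_zero : can p q 0 = 0 := by simp [can]

theorem rad_zero : rad q 0 = 0 := by simp [rad, ofD_nil]

theorem can_step (hq : 2 ≤ q) {m : ℕ} (hm : m < q) (n : ℕ) :
    can p q (m + q * n) = m + p * can p q n := by
  unfold can
  by_cases h : m ≠ 0 ∨ n ≠ 0
  · rw [Nat.digits_add q (by omega) m n hm h, Nat.ofDigits_cons]
  · push Not at h
    obtain ⟨rfl, rfl⟩ := h
    simp

theorem rad_step (hq : 2 ≤ q) {m : ℕ} (hm : m < q) (n : ℕ) :
    rad q (m + q * n) = (m + rad q n) / q := by
  have hq0 : (q : ℝ) ≠ 0 := by positivity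
  unfold rad
  by_cases h : m ≠ 0 ∨ n ≠ 0
  · rw [Nat.digits_add q (by omega) m n hm h, ofD_cons]
    field_simp
  · push Not at h
    obtain ⟨rfl, rfl⟩ := h
    simp [ofD_nil]

theorem split (hq : 2 ≤ q) {a k : ℕ} (ha : a < q ^ (k + 1)) :
    ∃ m < q, ∃ a' < q ^ k, a = m + q * a' := by
  refine ⟨a % q, Nat.mod_lt _ (by omega), a / q, ?_, (Nat.mod_add_div a q).symm⟩
  rw [Nat.div_lt_iff_lt_mul (by omega)]
  rwa [pow_succ] at ha

theorem can_split (hq : 2 ≤ q) (k : ℕ) : ∀ a < q ^ k, ∀ b,
    can p q (a + q ^ k * b) = can p q a + p ^ k * can p q b := by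
  induction k with
  | zero =>
    intro a ha b
    have : a = 0 := by simpa using ha
    subst this
    simp [can_zero]
  | succ k ih =>
    intro a ha b
    obtain ⟨m, hm, a', ha', rfl⟩ := split hq ha
    have e : m + q * a' + q ^ (k + 1) * b = m + q * (a' + q ^ k * b) := by ring
    rw [e, can_step hq hm, can_step hq hm, ih a' ha' b]
    ring

theorem rad_split (hq : 2 ≤ q) (k : ℕ) : ∀ a < q ^ k, ∀ b,
    rad q (a + q ^ k * b) = rad q a + rad q b / q ^ k := by
  have hq0 : (q : ℝ) ≠ 0 := by positivity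
  induction k with
  | zero =>
    intro a ha b
    have : a = 0 := by simpa using ha
    subst this
    simp [rad_zero]
  | succ k ih =>
    intro a ha b
    obtain ⟨m, hm, a', ha', rfl⟩ := split hq ha
    have e : m + q * a' + q ^ (k + 1) * b = m + q * (a' + q ^ k * b) := by ring
    rw [e, rad_step hq hm, rad_step hq hm, ih a' ha' b]
    field_simp
    ring

theorem can_digit (hq : 2 ≤ q) {m : ℕ} (hm : m < q) : can p q m = m := by
  have := can_step (p := p) hq hm 0
  simpa [can_zero] using this

theorem rad_digit (hq : 2 ≤ q) {m : ℕ} (hm : m < q) : rad q m = m / q := by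
  have := rad_step hq hm 0
  simpa [rad_zero] using this

theorem rad_nonneg (n : ℕ) : 0 ≤ rad q n := by
  unfold rad
  refine div_nonneg ?_ (by positivity)
  induction q.digits n with
  | nil => simp [ofD_nil]
  | cons a l ih =>
    rw [ofD_cons]
    positivity

theorem can_bound (hq : 2 ≤ q) (hp : 1 ≤ p) (k : ℕ) : ∀ a < q ^ k,
    (p - 1 : ℤ) * can p q a + (q - 1) ≤ (q - 1) * p ^ k := by
  induction k with
  | zero =>
    intro a ha
    have : a = 0 := by simpa using ha
    subst this
    simp [can_zero]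
  | succ k ih =>
    intro a ha
    obtain ⟨m, hm, a', ha', rfl⟩ := split hq ha
    rw [can_step hq hm]
    have h1 := ih a' ha'
    push_cast
    have h2 : (m : ℤ) ≤ q - 1 := by omega
    have h3 : (0 : ℤ) ≤ p - 1 := by omega
    have h4 := mul_le_mul_of_nonneg_left h2 h3
    have h5 := mul_le_mul_of_nonneg_left h1 (by omega : (0 : ℤ) ≤ p)
    have e : (q - 1 : ℤ) * p ^ (k + 1) = p * ((q - 1) * p ^ k) := by ring
    rw [e]
    nlinarith

theorem can_top (hq : 2 ≤ q) (k : ℕ) :
    (p - 1 : ℤ) * can p q (q ^ k - 1) + (q - 1) = (q - 1) * p ^ k := by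
  induction k with
  | zero => simp [can_zero]
  | succ k ih =>
    have hpos : 0 < q ^ k := by positivity
    have e : q ^ (k + 1) - 1 = (q - 1) + q * (q ^ k - 1) := by
      obtain ⟨r, hr⟩ : ∃ r, q ^ k = r + 1 := ⟨q ^ k - 1, by omega⟩
      obtain ⟨s, hs⟩ : ∃ s, q = s + 1 := ⟨q - 1, by omega⟩
      rw [pow_succ, hr, hs]
      simp only [Nat.add_sub_cancel]
      have : (r + 1) * (s + 1) - 1 = s + (s + 1) * r := by
        have : (r + 1) * (s + 1) = s + (s + 1) * r + 1 := by ring
        omega
      exact this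
    rw [e, can_step hq (by omega)]
    push_cast [Nat.cast_sub (by omega : 1 ≤ q)]
    have e2 : (q - 1 : ℤ) * p ^ (k + 1) = p * ((q - 1) * p ^ k) := by ring
    rw [e2, ← ih]
    ring

theorem can_mono (hq : 2 ≤ q) (hqp : q ≤ p) : StrictMono (can p q) := by
  have key : ∀ n' n, n < n' → can p q n < can p q n' := by
    intro n'
    induction n' using Nat.strong_induction_on with
    | _ n' ih =>
    intro n hn
    have hn0 : n % q < q := Nat.mod_lt _ (by omega)
    have hn0' : n' % q < q := Nat.mod_lt _ (by omega)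
    have e := Nat.mod_add_div n q
    have e' := Nat.mod_add_div n' q
    rw [← e, ← e', can_step hq hn0, can_step hq hn0']
    have hdiv : n / q ≤ n' / q := Nat.div_le_div_right hn.le
    rcases hdiv.eq_or_lt with h | h
    · rw [h]
      have : n % q < n' % q := by
        rw [h] at e
        omega
      omega
    · have h1 := ih (n' / q) (Nat.div_lt_self (by omega) (by omega)) (n / q) h
      have h2 : p * (can p q (n / q) + 1) ≤ p * can p q (n' / q) := Nat.mul_le_mul_left p h1
      rw [mul_add, mul_one] at h2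
      omega
  exact fun n n' h => key n' n h

/-- digit reversal -/
def rev (q : ℕ) : ℕ → ℕ → ℕ
  | 0, _ => 0
  | k + 1, a => (a % q) * q ^ k + rev q k (a / q)

theorem rev_lt (hq : 2 ≤ q) (k : ℕ) : ∀ a, rev q k a < q ^ k := by
  induction k with
  | zero => intro a; simp [rev]
  | succ k ih =>
    intro a
    unfold rev
    have h1 := ih (a / q)
    have h2 : a % q < q := Nat.mod_lt _ (by omega)
    have h3 : (a % q + 1) * q ^ k ≤ q * q ^ k := Nat.mul_le_mul_right _ h2
    have h4 : q ^ (k + 1) = q * q ^ k := by ring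
    rw [h4]
    have h5 : (a % q + 1) * q ^ k = a % q * q ^ k + q ^ k := by ring
    omega

theorem rev_inj (hq : 2 ≤ q) (k : ℕ) : ∀ a < q ^ k, ∀ b < q ^ k, rev q k a = rev q k b → a = b := by
  induction k with
  | zero => intro a ha b hb _; simp at ha hb; omega
  | succ k ih =>
    intro a ha b hb h
    unfold rev at h
    have ha1 := rev_lt hq k (a / q)
    have hb1 := rev_lt hq k (b / q)
    have hpos : 0 < q ^ k := by positivity
    have h1 : a % q = b % q := by
      have := congrArg (· / q ^ k) h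
      beta_reduce at this
      rw [mul_comm (a % q), mul_comm (b % q), Nat.mul_add_div hpos, Nat.mul_add_div hpos,
        Nat.div_eq_of_lt ha1, Nat.div_eq_of_lt hb1] at this
      simpa using this
    have h2 : rev q k (a / q) = rev q k (b / q) := by rw [h1] at h; omega
    have h3 := ih (a / q) (by rw [Nat.div_lt_iff_lt_mul (by omega)]; rwa [pow_succ] at ha) (b / q)
      (by rw [Nat.div_lt_iff_lt_mul (by omega)]; rwa [pow_succ] at hb) h2
    rw [← Nat.mod_add_div a q, ← Nat.mod_add_div b q, h1, h3]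

theorem rev_rad (hq : 2 ≤ q) (k : ℕ) : ∀ a < q ^ k, (rev q k a : ℝ) = rad q a * q ^ k := by
  have hq0 : (q : ℝ) ≠ 0 := by positivity
  induction k with
  | zero =>
    intro a ha
    have : a = 0 := by simpa using ha
    subst this
    simp [rev, rad_zero]
  | succ k ih =>
    intro a ha
    have h2 : a % q < q := Nat.mod_lt _ (by omega)
    have h3 := ih (a / q) (by rw [Nat.div_lt_iff_lt_mul (by omega)]; rwa [pow_succ] at ha)
    have e : rad q a = ((a % q : ℕ) + rad q (a / q)) / q := by
      conv_lhs => rw [← Nat.mod_add_div a q]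
      exact rad_step hq h2 _
    unfold rev
    push_cast
    rw [h3, e]
    field_simp
    ring

theorem rad_lt_one (hq : 2 ≤ q) (n : ℕ) : rad q n < 1 := by
  have h1 : n < q ^ n := Nat.lt_pow_self (by omega)
  have h2 := rev_rad hq n n h1
  have h3 := rev_lt hq n n
  have h4 : (0 : ℝ) < (q : ℝ) ^ n := by positivity
  have h5 : (rev q n n : ℝ) < (q : ℝ) ^ n := by exact_mod_cast h3
  rw [h2] at h5
  nlinarith

theorem card_rad (hq : 2 ≤ q) {ρ : ℝ} (h0 : 0 ≤ ρ) (k : ℕ) :
    (((range (q ^ k)).filter (fun a => rad q a < ρ)).card : ℝ) ≤ ρ * q ^ k + 1 ∧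
      (ρ ≤ 1 → ρ * q ^ k ≤ ((range (q ^ k)).filter (fun a => rad q a < ρ)).card) := by
  have hqk : (0 : ℝ) < (q : ℝ) ^ k := by positivity
  have hcard : ((range (q ^ k)).filter (fun a => rad q a < ρ)).card
      = ((range (q ^ k)).filter (fun b : ℕ => (b : ℝ) < ρ * q ^ k)).card := by
    refine card_nbij (rev q k) ?_ ?_ ?_
    · intro a ha
      simp only [coe_filter, mem_range, Set.mem_ofPred_eq] at ha ⊢
      refine ⟨rev_lt hq k a, ?_⟩
      rw [rev_rad hq k a ha.1]
      exact mul_lt_mul_of_pos_right ha.2 hqk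
    · intro a ha b hb h
      simp only [coe_filter, mem_range, Set.mem_ofPred_eq] at ha hb
      exact rev_inj hq k a ha.1 b hb.1 h
    · intro b hb
      simp only [coe_filter, mem_range, Set.mem_ofPred_eq] at hb
      have him : image (rev q k) (range (q ^ k)) = range (q ^ k) := by
        refine eq_of_subset_of_card_le ?_ ?_
        · intro x hx
          obtain ⟨a, _, rfl⟩ := mem_image.1 hx
          exact mem_range.2 (rev_lt hq k a)
        · rw [card_image_of_injOn]
          intro a ha b hb h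
          exact rev_inj hq k a (by simpa using ha) b (by simpa using hb) h
      have : b ∈ image (rev q k) (range (q ^ k)) := by rw [him]; exact mem_range.2 hb.1
      obtain ⟨a, ha, rfl⟩ := mem_image.1 this
      refine ⟨a, ?_, rfl⟩
      simp only [coe_filter, mem_range, Set.mem_ofPred_eq]
      refine ⟨mem_range.1 ha, ?_⟩
      have h2 := hb.2
      rw [rev_rad hq k a (mem_range.1 ha)] at h2
      exact lt_of_mul_lt_mul_right h2 hqk.le
  rw [hcard]
  constructor
  · have hsub : (range (q ^ k)).filter (fun b : ℕ => (b : ℝ) < ρ * q ^ k)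
        ⊆ range ⌈ρ * q ^ k⌉₊ := by
      intro b hb
      rw [mem_filter] at hb
      exact mem_range.2 (Nat.lt_ceil.2 hb.2)
    have h1 := card_le_card hsub
    rw [card_range] at h1
    have h2 := Nat.ceil_lt_add_one (by positivity : 0 ≤ ρ * (q : ℝ) ^ k)
    have h3 : (((range (q ^ k)).filter (fun b : ℕ => (b : ℝ) < ρ * q ^ k)).card : ℝ)
        ≤ ⌈ρ * (q : ℝ) ^ k⌉₊ := by exact_mod_cast h1
    linarith
  · intro hρ
    have hsub : range ⌈ρ * (q : ℝ) ^ k⌉₊ ⊆
        (range (q ^ k)).filter (fun b : ℕ => (b : ℝ) < ρ * q ^ k) := by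
      intro b hb
      have h1 := Nat.lt_ceil.1 (mem_range.1 hb)
      refine mem_filter.2 ⟨mem_range.2 ?_, h1⟩
      have h2 : (b : ℝ) < (q : ℝ) ^ k := by nlinarith
      exact_mod_cast h2
    have h1 := card_le_card hsub
    rw [card_range] at h1
    exact (Nat.le_ceil _).trans (by exact_mod_cast h1)

end Pool.Agent.Q83.Beu
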