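import Pool.Agent.Q83.Beu.Can

/-! The gap inequality for the canonical set. -/

set_option autoImplicit false

open Finset

namespace Pool.Agent.Q83.Beu

variable {p q : ℕ}

/-- `log p / log q` -/
noncomputable def tt (p q : ℕ) : ℝ := Real.log p / Real.log q

/-- `(p-1)/(q-1)` -/
noncomputable def cc (p q : ℕ) : ℝ := ((p : ℝ) - 1) / ((q : ℝ) - 1)

theorem tt_one (hq : 2 ≤ q) (hqp : q < p) : 1 ≤ tt p q := by
  unfold tt
  have h1 : 0 < Real.log q := Real.log_pos (by exact_mod_cast (by omega : 1 < q))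
  rw [le_div_iff₀ h1, one_mul]
  exact Real.log_le_log (by positivity) (by exact_mod_cast hqp.le)

theorem q_tt (hq : 2 ≤ q) (hqp : q < p) : (q : ℝ) ^ tt p q = p := by
  have hq0 : (0 : ℝ) < q := by positivity
  have hp0 : (0 : ℝ) < p := by exact_mod_cast (by omega : 0 < p)
  have h1 : 0 < Real.log q := Real.log_pos (by exact_mod_cast (by omega : 1 < q))
  rw [Real.rpow_def_of_pos hq0]
  unfold tt
  rw [mul_div_cancel₀ _ h1.ne', Real.exp_log hp0]

theorem slope (hq : 2 ≤ q) (hqp : q < p) {y Y : ℝ} (h1 : 1 ≤ y) (h2 : y ≤ Y) (h3 : q ≤ Y) :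
    y ^ tt p q ≤ Y ^ tt p q - cc p q * (Y - y) := by
  rcases h2.eq_or_lt with rfl | h2
  · simp
  have hconv := convexOn_rpow (tt_one hq hqp)
  have hq1 : (1 : ℝ) < q := by exact_mod_cast (by omega : 1 < q)
  rcases h1.eq_or_lt with rfl | h1
  · have s1 := hconv.secant_mono (a := 1) (x := (q : ℝ)) (y := Y) (by simp)
      (by simp only [Set.mem_Ici]; linarith) (by simp only [Set.mem_Ici]; linarith) (by linarith)
      (by linarith) h3
    rw [q_tt hq hqp, Real.one_rpow] at s1
    rw [Real.one_rpow]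
    unfold cc
    rw [le_div_iff₀ (by linarith)] at s1
    linarith
  · have s1 := hconv.secant_mono (a := 1) (x := (q : ℝ)) (y := Y) (by simp)
      (by simp only [Set.mem_Ici]; linarith) (by simp only [Set.mem_Ici]; linarith) (by linarith)
      (by linarith) h3
    have s2 := hconv.secant_mono (a := Y) (x := (1 : ℝ)) (y := y)
      (by simp only [Set.mem_Ici]; linarith)
      (by simp) (by simp only [Set.mem_Ici]; linarith) (by linarith)
      (by linarith) h1.le
    rw [q_tt hq hqp, Real.one_rpow] at s1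
    rw [Real.one_rpow] at s2
    have e1 : (1 - Y ^ tt p q) / (1 - Y) = (Y ^ tt p q - 1) / (Y - 1) := by
      rw [← neg_div_neg_eq]; congr 1 <;> ring
    have e2 : (y ^ tt p q - Y ^ tt p q) / (y - Y) = (Y ^ tt p q - y ^ tt p q) / (Y - y) := by
      rw [← neg_div_neg_eq]; congr 1 <;> ring
    rw [e1, e2] at s2
    have s3 : cc p q ≤ (Y ^ tt p q - y ^ tt p q) / (Y - y) := s1.trans s2
    rw [le_div_iff₀ (by linarith)] at s3
    linarith

theorem gap (hq : 2 ≤ q) (hqp : q < p) : ∀ n2 n1 : ℕ, n1 ≤ n2 →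
    ((n2 : ℝ) - n1 + 1) ^ tt p q ≤ cc p q * ((can p q n2 : ℝ) - can p q n1) + 1 := by
  intro n2
  induction n2 using Nat.strong_induction_on with
  | _ n2 ih =>
  intro n1 h12
  rcases Nat.eq_zero_or_pos n2 with h0 | hpos
  · have : n1 = 0 := by omega
    subst h0 this
    simp
  have ht := tt_one hq hqp
  have hq1 : (1 : ℝ) < q := by exact_mod_cast (by omega : 1 < q)
  have ha1 : n1 % q < q := Nat.mod_lt _ (by omega)
  have ha2 : n2 % q < q := Nat.mod_lt _ (by omega)
  have e1 := Nat.mod_add_div n1 q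
  have e2 := Nat.mod_add_div n2 q
  have hdiv : n1 / q ≤ n2 / q := Nat.div_le_div_right h12
  have h1 := ih (n2 / q) (Nat.div_lt_self hpos (by omega)) (n1 / q) hdiv
  set b1 := n1 / q
  set b2 := n2 / q
  set a1 := n1 % q
  set a2 := n2 % q
  have c1 : can p q n1 = a1 + p * can p q b1 := by
    rw [← e1]; exact can_step hq ha1 b1
  have c2 : can p q n2 = a2 + p * can p q b2 := by
    rw [← e2]; exact can_step hq ha2 b2
  have r1 : (n1 : ℝ) = a1 + q * b1 := by exact_mod_cast e1.symm
  have r2 : (n2 : ℝ) = a2 + q * b2 := by exact_mod_cast e2.symm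
  have rb : (b1 : ℝ) ≤ b2 := by exact_mod_cast hdiv
  have rn : (n1 : ℝ) ≤ n2 := by exact_mod_cast h12
  have ra1 : (0 : ℝ) ≤ a1 := by positivity
  have ra2 : (a2 : ℝ) ≤ q - 1 := by
    have : (a2 : ℝ) + 1 ≤ q := by exact_mod_cast ha2
    linarith
  have key := slope hq hqp (y := (n2 : ℝ) - n1 + 1) (Y := q * ((b2 : ℝ) - b1 + 1)) (by linarith)
    (by rw [r1, r2]; nlinarith) (by nlinarith)
  rw [Real.mul_rpow (by positivity) (by linarith), q_tt hq hqp] at key
  have hp0 : (0 : ℝ) ≤ p := by positivity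
  have h2 := mul_le_mul_of_nonneg_left h1 hp0
  have hcq : cc p q * (q - 1) = p - 1 := by
    unfold cc
    rw [div_mul_cancel₀]
    linarith
  rw [c1, c2]
  push_cast
  refine key.trans ?_
  have e3 : (q : ℝ) * (b2 - b1 + 1) - (n2 - n1 + 1) = (q - 1) - (a2 - a1) := by
    rw [r1, r2]; ring
  rw [e3]
  nlinarith

/-- the counting form -/
theorem count (hq : 2 ≤ q) (hqp : q < p) {F : Finset ℕ} {T : ℝ} (hT : 0 ≤ T)
    (h : ∀ n ∈ F, ∀ m ∈ F, (can p q n : ℝ) - can p q m ≤ T) :
    (F.card : ℝ) ≤ (cc p q * T + 1) ^ (1 / tt p q) := by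
  have ht := tt_one hq hqp
  have hq1 : (1 : ℝ) < q := by exact_mod_cast (by omega : 1 < q)
  have hp1 : (1 : ℝ) < p := by exact_mod_cast (by omega : 1 < p)
  have hc : 0 ≤ cc p q := by
    unfold cc
    exact div_nonneg (by linarith) (by linarith)
  rcases F.eq_empty_or_nonempty with rfl | hne
  · simp only [card_empty, Nat.cast_zero]
    positivity
  have h1 := gap hq hqp (F.max' hne) (F.min' hne) (F.min'_le _ (F.max'_mem hne))
  have h2 := h _ (F.max'_mem hne) _ (F.min'_mem hne)
  have hle := F.min'_le _ (F.max'_mem hne)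
  have hcard : F.card ≤ F.max' hne - F.min' hne + 1 := by
    have hsub : F ⊆ Icc (F.min' hne) (F.max' hne) := fun x hx =>
      mem_Icc.2 ⟨F.min'_le x hx, F.le_max' x hx⟩
    have := card_le_card hsub
    rw [Nat.card_Icc] at this
    omega
  have h3 : (F.card : ℝ) ≤ (F.max' hne : ℝ) - F.min' hne + 1 := by
    have : (F.card : ℝ) ≤ ((F.max' hne - F.min' hne + 1 : ℕ) : ℝ) := by exact_mod_cast hcard
    rwa [Nat.cast_add, Nat.cast_sub hle, Nat.cast_one] at this
  have h4 : (F.card : ℝ) ^ tt p q ≤ cc p q * T + 1 := by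
    refine (Real.rpow_le_rpow (by positivity) h3 (by linarith)).trans (h1.trans ?_)
    have := mul_le_mul_of_nonneg_left h2 hc
    linarith
  have h5 := Real.rpow_le_rpow (by positivity) h4 (by positivity : 0 ≤ 1 / tt p q)
  rwa [← Real.rpow_mul (by positivity), mul_one_div_cancel (by linarith), Real.rpow_one] at h5

end Pool.Agent.Q83.Beu
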