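import Pool.Agent.Q83.Beu.Tr
import Pool.Agent.Q83.Beu.Gap

/-! Counting points of the spectrum. -/

set_option autoImplicit false

open Finset Pool.Agent.Q83.Tree

namespace Pool.Agent.Q83.Beu

variable {p q : ℕ}

theorem can_mem (h : Adm p q) (ρ : ℝ) (k : ℕ) : ∀ n < q ^ k, rad q n < ρ →
    (can p q n : ℤ) ∈ TT (CB h ρ) 0 k := by
  have hq := h.hq
  induction k with
  | zero =>
    intro n hn _
    have : n = 0 := by simpa using hn
    subst this
    simp [TT, can_zero]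
  | succ k ih =>
    intro n hn hr
    have hpos : 0 < q ^ k := by positivity
    set a := n % q ^ k with ha
    set m := n / q ^ k with hm
    have hn' : a + q ^ k * m = n := Nat.mod_add_div n (q ^ k)
    have ha' : a < q ^ k := Nat.mod_lt _ hpos
    have hm' : m < q := by
      rw [hm, Nat.div_lt_iff_lt_mul hpos]
      rwa [pow_succ, mul_comm] at hn
    have hra : rad q a < ρ := by
      have h1 := rad_split hq k a ha' m
      rw [hn'] at h1
      have h2 : 0 ≤ rad q m / q ^ k := div_nonneg (rad_nonneg m) (by positivity)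
      linarith
    refine (mem_TT_succ (CB h ρ) 0).2 ⟨can p q a, ih a ha' hra, m, hm', ?_⟩
    change RB p q ρ k (can p q a) m = can p q n
    have h3 : can p q n = can p q a + p ^ k * m := by
      rw [← hn', can_split hq k a ha' m, can_digit hq hm']
    unfold RB
    split_ifs with h1 h2
    · rw [h3, h1]; simp
    · rw [h3]; push_cast; ring
    · exact absurd ⟨a, ha', rfl, by rw [hn']; exact hr⟩ h2

/-- the set of far targets -/
def Fs (p q : ℕ) : Set ℤ :=
  {y | ∃ j z m, (Sm p j z ∨ Fm p q j z) ∧ m < q ∧ y = far p q j z m}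

theorem YY_sub (h : Adm p q) (ρ : ℝ) {y : ℤ} (hy : y ∈ YY (CB h ρ) 0) :
    y = 0 ∨ (∃ n, rad q n < ρ ∧ y = can p q n) ∨ y ∈ Fs p q := by
  obtain ⟨j, hy⟩ := hy
  induction j generalizing y with
  | zero =>
    simp only [TT, mem_singleton] at hy
    exact Or.inl hy
  | succ j ih =>
    obtain ⟨u, hu, m, hm, rfl⟩ := (mem_TT_succ (CB h ρ) 0).1 hy
    have hI := inv h ρ j u hu
    change m < q at hm
    change RB p q ρ j u m = 0 ∨ (∃ n, rad q n < ρ ∧ RB p q ρ j u m = can p q n)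
      ∨ RB p q ρ j u m ∈ Fs p q
    unfold RB
    split_ifs with h1 h2
    · exact ih hu
    · obtain ⟨n, hn, rfl, hr⟩ := h2
      refine Or.inr (Or.inl ⟨n + q ^ j * m, hr, ?_⟩)
      rw [can_split h.hq j n hn m, can_digit h.hq hm]
      push_cast
      ring
    · exact Or.inr (Or.inr ⟨j, u, m, hI, hm, rfl⟩)

/-- exponents of far targets -/
theorem Fs_exp (h : Adm p q) : ∃ L : ℤ → ℕ, (∀ y ∈ Fs p q, ∃ c : ℤ, 0 ≤ c ∧ 3 * c ≤ 2 * p ^ L y ∧
    y = c + q * p ^ L y) ∧ ∀ y ∈ Fs p q, ∀ y' ∈ Fs p q, L y = L y' → y = y' := by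
  have hch : ∀ y, y ∈ Fs p q → ∃ j z m, (Sm p j z ∨ Fm p q j z) ∧ m < q ∧ y = far p q j z m :=
    fun y hy => hy
  choose! J Z M hJ using hch
  refine ⟨fun y => sh (J y) (Z y) (M y), ?_, ?_⟩
  · intro y hy
    obtain ⟨h1, h2, h3⟩ := hJ y hy
    have h4 := Sm_mono h (sh_ge (J y) (Z y) (M y)) (Sm_add h (Sm_mod h h1) h2)
    exact ⟨_, h4.1, h4.2, h3⟩
  · intro y hy y' hy' hL
    obtain ⟨h1, h2, h3⟩ := hJ y hy
    obtain ⟨h1', h2', h3'⟩ := hJ y' hy'
    obtain ⟨g1, g2, g3⟩ := sh_inj hL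
    rw [h3, h3', g1, g2, g3]

/-- far targets are sparse -/
theorem Fs_card (h : Adm p q) {F : Finset ℤ} (hF : ∀ y ∈ F, y ∈ Fs p q) {K : ℕ}
    (hK : ∀ y ∈ F, ∀ y' ∈ F, y - y' < 2 ^ K) : F.card ≤ K + 1 := by
  obtain ⟨L, hL1, hL2⟩ := Fs_exp h
  have h1 := h.two
  have h2 := h.hq
  have hp4 : (4 : ℤ) ≤ p := by exact_mod_cast (by omega : 4 ≤ p)
  have hq2 : (2 : ℤ) ≤ q := by exact_mod_cast h2
  have hpq : (2 : ℤ) * q ≤ p := by exact_mod_cast h1
  rcases F.eq_empty_or_nonempty with rfl | hne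
  · simp
  set y0 := F.min' hne with hy0
  have hy0F := F.min'_mem hne
  have key : ∀ y ∈ F.erase y0, L y ∈ Icc 1 K := by
    intro y hy
    obtain ⟨hy1, hy2⟩ := mem_erase.1 hy
    have hlt : y0 < y := lt_of_le_of_ne (F.min'_le y hy2) (Ne.symm hy1)
    obtain ⟨c, hc0, hc1, hc2⟩ := hL1 y (hF y hy2)
    obtain ⟨c', hc0', hc1', hc2'⟩ := hL1 y0 (hF y0 hy0F)
    have hP : ∀ l : ℕ, (0 : ℤ) < (p : ℤ) ^ l := fun l => by positivity
    have hLL : L y0 < L y := by
      rcases lt_trichotomy (L y0) (L y) with g | g | g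
      · exact g
      · exact absurd (hL2 _ (hF y0 hy0F) _ (hF y hy2) g) hlt.ne
      · exfalso
        obtain ⟨d, hd⟩ := Nat.exists_eq_add_of_lt g
        have e : (p : ℤ) ^ L y0 = p ^ L y * p ^ d * p := by rw [hd]; ring
        have h3 : (1 : ℤ) ≤ (p : ℤ) ^ d := hP d
        have h4 := hP (L y)
        have h5 : (p : ℤ) ^ L y * p ≤ (p : ℤ) ^ L y0 := by
          rw [e]
          have : (p : ℤ) ^ L y * 1 ≤ (p : ℤ) ^ L y * p ^ d := mul_le_mul_of_nonneg_left h3 h4.le
          nlinarith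
        have h6 : (p : ℤ) ^ L y * 4 ≤ (p : ℤ) ^ L y0 := by nlinarith
        have h7 : q * ((p : ℤ) ^ L y * 4) ≤ q * (p : ℤ) ^ L y0 :=
          mul_le_mul_of_nonneg_left h6 (by linarith)
        nlinarith
    obtain ⟨l, hl⟩ : ∃ l, L y = l + 1 := ⟨L y - 1, by omega⟩
    have hle : (p : ℤ) ^ L y0 ≤ (p : ℤ) ^ l := pow_le_pow_right₀ (by linarith) (by omega)
    have h3 : (p : ℤ) ^ l ≤ y - y0 := by
      have h4 := hP l
      rw [hc2, hc2', hl, pow_succ]
      have h5 : (q : ℤ) * (p : ℤ) ^ L y0 ≤ q * (p : ℤ) ^ l :=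
        mul_le_mul_of_nonneg_left hle (by linarith)
      have h6 : (p : ℤ) ^ l * (q * 4) ≤ (p : ℤ) ^ l * (q * p) := by
        refine mul_le_mul_of_nonneg_left ?_ h4.le
        exact mul_le_mul_of_nonneg_left hp4 (by linarith)
      nlinarith
    have h4 := hK y hy2 y0 hy0F
    have h5 : (2 : ℤ) ^ l ≤ (p : ℤ) ^ l := pow_le_pow_left₀ (by norm_num) (by linarith) l
    have h6 : (2 : ℤ) ^ l < 2 ^ K := by linarith
    have h7 : l < K := (pow_lt_pow_iff_right₀ (by norm_num : (1 : ℤ) < 2)).1 h6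
    rw [mem_Icc]
    omega
  have h3 : (F.erase y0).card ≤ (Icc 1 K).card := by
    refine card_le_card_of_injOn L key ?_
    intro y hy y' hy' hLy
    exact hL2 _ (hF _ (mem_of_mem_erase hy)) _ (hF _ (mem_of_mem_erase hy')) hLy
  rw [card_erase_of_mem hy0F, Nat.card_Icc] at h3
  omega

/-- the canonical part -/
theorem can_card (h : Adm p q) {ρ : ℝ} (h0 : 0 ≤ ρ) {G : Finset ℕ} (hG : ∀ n ∈ G, rad q n < ρ)
    {T : ℝ} (hT : 0 ≤ T) (hd : ∀ n ∈ G, ∀ m ∈ G, (can p q n : ℝ) - can p q m ≤ T) (k : ℕ) :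
    (G.card : ℝ) ≤ (ρ * q ^ k + 1) * (cc p q * (T / p ^ k) + 1) ^ (1 / tt p q) := by
  have hq := h.hq
  have hlt := h.hlt
  have hpos : 0 < q ^ k := by positivity
  have hpp : (0 : ℝ) < (p : ℝ) ^ k := by
    have : 0 < p := by omega
    positivity
  set A := (range (q ^ k)).filter (fun a => rad q a < ρ) with hA
  have hmaps : ∀ n ∈ G, n % q ^ k ∈ A := by
    intro n hn
    rw [hA, mem_filter, mem_range]
    have ha' : n % q ^ k < q ^ k := Nat.mod_lt _ hpos
    refine ⟨ha', ?_⟩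
    have h1 := rad_split hq k _ ha' (n / q ^ k)
    rw [Nat.mod_add_div] at h1
    have h2 : 0 ≤ rad q (n / q ^ k) / q ^ k := div_nonneg (rad_nonneg _) (by positivity)
    have := hG n hn
    linarith
  have hfib : ∀ a ∈ A, ((G.filter (fun n => n % q ^ k = a)).card : ℝ)
      ≤ (cc p q * (T / p ^ k) + 1) ^ (1 / tt p q) := by
    intro a ha
    have ha' : a < q ^ k := by
      rw [hA, mem_filter, mem_range] at ha
      exact ha.1
    have hdec : ∀ n ∈ G.filter (fun n => n % q ^ k = a), n = a + q ^ k * (n / q ^ k) := by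
      intro n hn
      have h1 := (mem_filter.1 hn).2
      conv_lhs => rw [← Nat.mod_add_div n (q ^ k), h1]
    have hcard : (G.filter (fun n => n % q ^ k = a)).card
        = ((G.filter (fun n => n % q ^ k = a)).image (fun n => n / q ^ k)).card := by
      rw [card_image_of_injOn]
      intro n hn m hm hnm
      rw [hdec n hn, hdec m hm]
      have : n / q ^ k = m / q ^ k := hnm
      rw [this]
    rw [hcard]
    refine count hq hlt (by positivity) ?_
    intro b hb b' hb'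
    obtain ⟨n, hn, rfl⟩ := mem_image.1 hb
    obtain ⟨m, hm, rfl⟩ := mem_image.1 hb'
    have h1 := hd n (mem_filter.1 hn).1 m (mem_filter.1 hm).1
    have e1 : (can p q n : ℝ) = can p q a + p ^ k * can p q (n / q ^ k) := by
      conv_lhs => rw [hdec n hn, can_split hq k a ha']
      push_cast
      rfl
    have e2 : (can p q m : ℝ) = can p q a + p ^ k * can p q (m / q ^ k) := by
      conv_lhs => rw [hdec m hm, can_split hq k a ha']
      push_cast
      rfl
    rw [e1, e2] at h1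
    rw [le_div_iff₀ hpp]
    linarith
  have hsum : (G.card : ℝ) = ∑ a ∈ A, ((G.filter (fun n => n % q ^ k = a)).card : ℝ) := by
    have := card_eq_sum_card_fiberwise (f := fun n => n % q ^ k) (s := G) (t := A) hmaps
    exact_mod_cast this
  have hnn : 0 ≤ (cc p q * (T / p ^ k) + 1) ^ (1 / tt p q) := by
    apply Real.rpow_nonneg
    have hc : 0 ≤ cc p q := by
      unfold cc
      have hq1 : (1 : ℝ) < q := by exact_mod_cast (by omega : 1 < q)
      have hp1 : (1 : ℝ) < p := by exact_mod_cast (by omega : 1 < p)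
      exact div_nonneg (by linarith) (by linarith)
    positivity
  rw [hsum]
  calc ∑ a ∈ A, ((G.filter (fun n => n % q ^ k = a)).card : ℝ)
      ≤ ∑ a ∈ A, (cc p q * (T / p ^ k) + 1) ^ (1 / tt p q) := sum_le_sum hfib
    _ = A.card * (cc p q * (T / p ^ k) + 1) ^ (1 / tt p q) := by
        rw [sum_const, nsmul_eq_mul]
    _ ≤ _ := mul_le_mul_of_nonneg_right (card_rad hq h0 k).1 hnn

end Pool.Agent.Q83.Beu
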