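import Pool.Agent.Q83.Beu.Cnt

/-! The Beurling density of the spectrum. -/

set_option autoImplicit false

open Finset Pool.Agent.Q83.Tree Filter Topology
open scoped ENNReal

namespace Pool.Agent.Q83.Beu

variable {p q : ℕ}

/-- the upper `r`-Beurling density -/
noncomputable def upperBeurling (r : ℝ) (Λ : Set ℝ) : ℝ≥0∞ :=
  limsup (fun h : ℝ => (⨆ x : ℝ, ((Λ ∩ Set.Ioo (x - h) (x + h)).encard : ℝ≥0∞))
    / ENNReal.ofReal (h ^ r)) atTop

/-- the spectrum -/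
def LamB (h : Adm p q) (ρ : ℝ) : Set ℝ := (fun y : ℤ => (y : ℝ)) '' YY (CB h ρ) 0

theorem fin_bound (h : Adm p q) {ρ : ℝ} (h0 : 0 ≤ ρ) {x H : ℝ} (hH : 1 ≤ H) {F : Finset ℤ}
    (hF : ∀ y ∈ F, y ∈ YY (CB h ρ) 0 ∧ x - H < y ∧ (y : ℝ) < x + H) (k : ℕ) :
    (F.card : ℝ) ≤ (ρ * q ^ k + 1) * (cc p q * (2 * H / p ^ k) + 1) ^ (1 / tt p q)
      + (Real.logb 2 (2 * H) + 3) := by
  classical
  set F1 : Finset ℤ := F.filter (fun y : ℤ => ∃ n, rad q n < ρ ∧ y = (can p q n : ℤ)) with hF1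
  set F2 := F.filter (fun y => y ∈ Fs p q) with hF2
  have hsub : F ⊆ {0} ∪ (F1 ∪ F2) := by
    intro y hy
    rcases YY_sub h ρ (hF y hy).1 with h1 | h1 | h1
    · exact mem_union_left _ (mem_singleton.2 h1)
    · exact mem_union_right _ (mem_union_left _ (mem_filter.2 ⟨hy, h1⟩))
    · exact mem_union_right _ (mem_union_right _ (mem_filter.2 ⟨hy, h1⟩))
  have hcard : F.card ≤ 1 + (F1.card + F2.card) := by
    refine (card_le_card hsub).trans ((card_union_le _ _).trans ?_)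
    rw [card_singleton]
    exact Nat.add_le_add_left (card_union_le _ _) 1
  -- the canonical part
  have h1 : (F1.card : ℝ) ≤ (ρ * q ^ k + 1) * (cc p q * (2 * H / p ^ k) + 1) ^ (1 / tt p q) := by
    have hch : ∀ y : ℤ, y ∈ F1 → ∃ n, rad q n < ρ ∧ y = (can p q n : ℤ) :=
      fun y hy => (mem_filter.1 hy).2
    choose! N hN using hch
    have hc : F1.card = (F1.image N).card := by
      rw [card_image_of_injOn]
      intro y hy y' hy' hyy
      rw [(hN y hy).2, (hN y' hy').2, hyy]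
    rw [hc]
    refine can_card h h0 ?_ (by linarith) ?_ k
    · intro n hn
      obtain ⟨y, hy, rfl⟩ := mem_image.1 hn
      exact (hN y hy).1
    · intro n hn m hm
      obtain ⟨y, hy, rfl⟩ := mem_image.1 hn
      obtain ⟨z, hz, rfl⟩ := mem_image.1 hm
      have e1 : (can p q (N y) : ℝ) = (y : ℝ) := by
        have := (hN y hy).2
        exact_mod_cast this.symm
      have e2 : (can p q (N z) : ℝ) = (z : ℝ) := by
        have := (hN z hz).2
        exact_mod_cast this.symm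
      rw [e1, e2]
      have g1 := hF y (mem_filter.1 hy).1
      have g2 := hF z (mem_filter.1 hz).1
      linarith [g1.2.2, g2.2.1]
  -- the far part
  have h2 : (F2.card : ℝ) ≤ Real.logb 2 (2 * H) + 2 := by
    have hlog : 0 ≤ Real.logb 2 (2 * H) := Real.logb_nonneg (by norm_num) (by linarith)
    set K := ⌈Real.logb 2 (2 * H)⌉₊ with hK
    have hK1 : (K : ℝ) ≤ Real.logb 2 (2 * H) + 1 := (Nat.ceil_lt_add_one hlog).le
    have hK2 : 2 * H ≤ (2 : ℝ) ^ K := by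
      have := Nat.le_ceil (Real.logb 2 (2 * H))
      rw [Real.logb_le_iff_le_rpow (by norm_num) (by linarith), Real.rpow_natCast] at this
      exact this
    have h3 := Fs_card h (F := F2) (K := K) (fun y hy => (mem_filter.1 hy).2) ?_
    · have : (F2.card : ℝ) ≤ K + 1 := by exact_mod_cast h3
      linarith
    · intro y hy z hz
      have g1 := hF y (mem_filter.1 hy).1
      have g2 := hF z (mem_filter.1 hz).1
      have : (y : ℝ) - z < (2 : ℝ) ^ K := by linarith [g1.2.2, g2.2.1]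
      exact_mod_cast this
  have h4 : (F.card : ℝ) ≤ 1 + (F1.card + F2.card) := by exact_mod_cast hcard
  linarith

theorem encard_le_of_fin {S : Set ℤ} {b : ℝ} (hb : ∀ F : Finset ℤ, (∀ y ∈ F, y ∈ S) →
    (F.card : ℝ) ≤ b) : (S.encard : ℝ≥0∞) ≤ ENNReal.ofReal b := by
  have h1 : S.encard ≤ (⌊b⌋₊ : ℕ∞) := by
    by_contra hcon
    push Not at hcon
    have h2 : ((⌊b⌋₊ + 1 : ℕ) : ℕ∞) ≤ S.encard := by
      have := Order.add_one_le_of_lt hcon
      exact_mod_cast this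
    obtain ⟨t, ht, htc⟩ := Set.exists_subset_encard_eq h2
    have hfin : t.Finite := Set.finite_of_encard_eq_coe htc
    have h3 := hb hfin.toFinset (fun y hy => ht (hfin.mem_toFinset.1 hy))
    have h4 : hfin.toFinset.card = ⌊b⌋₊ + 1 := by
      have := hfin.encard_eq_coe_toFinset_card
      rw [htc] at this
      exact_mod_cast this.symm
    rw [h4] at h3
    have := Nat.lt_floor_add_one b
    push_cast at h3
    linarith
  have hb0 : 0 ≤ b := by simpa using hb ∅ (by simp)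
  have h2 : (S.encard : ℝ≥0∞) ≤ ((⌊b⌋₊ : ℕ∞) : ℝ≥0∞) := by exact_mod_cast h1
  refine h2.trans ?_
  have h3 : (((⌊b⌋₊ : ℕ∞)) : ℝ≥0∞) = ENNReal.ofReal (⌊b⌋₊ : ℝ) := by
    rw [ENNReal.ofReal_natCast]
    rfl
  rw [h3]
  exact ENNReal.ofReal_le_ofReal (Nat.floor_le hb0)

theorem LamB_inter (h : Adm p q) (ρ : ℝ) (x H : ℝ) :
    (LamB h ρ ∩ Set.Ioo (x - H) (x + H)).encard
      = {y : ℤ | y ∈ YY (CB h ρ) 0 ∧ x - H < y ∧ (y : ℝ) < x + H}.encard := by
  have e : LamB h ρ ∩ Set.Ioo (x - H) (x + H)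
      = (fun y : ℤ => (y : ℝ)) '' {y : ℤ | y ∈ YY (CB h ρ) 0 ∧ x - H < y ∧ (y : ℝ) < x + H} := by
    ext z
    constructor
    · rintro ⟨⟨y, hy, rfl⟩, h1, h2⟩
      exact ⟨y, ⟨hy, h1, h2⟩, rfl⟩
    · rintro ⟨y, ⟨hy, h1, h2⟩, rfl⟩
      exact ⟨⟨y, hy, rfl⟩, h1, h2⟩
  rw [e, Function.Injective.encard_image]
  exact Int.cast_injective

theorem sup_le (h : Adm p q) {ρ : ℝ} (h0 : 0 ≤ ρ) {H : ℝ} (hH : 1 ≤ H) (k : ℕ) :
    (⨆ x : ℝ, ((LamB h ρ ∩ Set.Ioo (x - H) (x + H)).encard : ℝ≥0∞))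
      ≤ ENNReal.ofReal ((ρ * q ^ k + 1) * (cc p q * (2 * H / p ^ k) + 1) ^ (1 / tt p q)
      + (Real.logb 2 (2 * H) + 3)) := by
  refine iSup_le fun x => ?_
  rw [LamB_inter]
  exact encard_le_of_fin fun F hF => fin_bound h h0 hH hF k

end Pool.Agent.Q83.Beu
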