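import Pool.Agent.Q83.Beu.Lim

/-! The self-similar measure and the final statement. -/

set_option autoImplicit false

open MeasureTheory Filter Topology Q83.Frac Pool.Agent.Q83.Tree
open scoped ENNReal

namespace Pool.Agent.Q83.Beu

variable {p q : ℕ}

/-- `μ` satisfies the self-similarity identity of `μ_{p,q}` -/
def SelfSim (p q : ℕ) (μ : Measure ℝ) : Prop :=
  μ = (q : ℝ≥0∞)⁻¹ • ∑ m ∈ Finset.range q, μ.map (fun x : ℝ => (x + (p : ℝ) / q * m) / p)

theorem FT_cont (μ : Measure ℝ) [IsProbabilityMeasure μ] : Continuous (FT μ) := by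
  have : FT μ = fun ξ => charFun μ (2 * Real.pi * ξ) := by
    funext ξ; exact FT_charFun μ ξ
  rw [this]
  exact (continuous_charFun).comp (by fun_prop)

theorem FT_self (h : Adm p q) {μ : Measure ℝ} [IsProbabilityMeasure μ] (hμ : SelfSim p q μ)
    (ξ : ℝ) : FT μ ξ = D q (ξ / q) * FT μ (ξ / p) := by
  have hq := h.hq
  have hlt := h.hlt
  have hq0 : (q : ℝ) ≠ 0 := by positivity
  have hp0 : (p : ℝ) ≠ 0 := by
    have : p ≠ 0 := by omega
    exact_mod_cast this
  have hmeas : ∀ m : ℕ, Measurable (fun x : ℝ => (x + (p : ℝ) / q * m) / p) := fun m => by fun_prop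
  have h1 : FT μ ξ = (q : ℂ)⁻¹ * ∑ m ∈ Finset.range q, ∫ x, ee ξ ((x + (p : ℝ) / q * m) / p) ∂μ := by
    conv_lhs => unfold FT; rw [show μ = _ from hμ]
    rw [integral_smul_measure, integral_finsetSum_measure]
    · rw [ENNReal.toReal_inv, ENNReal.toReal_natCast, Complex.real_smul]
      congr 1
      · push_cast; rfl
      · refine Finset.sum_congr rfl fun m _ => ?_
        rw [integral_map (hmeas m).aemeasurable (continuous_ee ξ).aestronglyMeasurable]
    · intro m _
      have : IsProbabilityMeasure (μ.map (fun x : ℝ => (x + (p : ℝ) / q * m) / p)) :=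
        Measure.isProbabilityMeasure_map (hmeas m).aemeasurable
      exact Integrable.of_bound (continuous_ee ξ).aestronglyMeasurable 1
        (Eventually.of_forall fun x => (norm_ee ξ x).le)
  rw [h1]
  unfold D
  rw [mul_assoc, Finset.sum_mul]
  congr 1
  refine Finset.sum_congr rfl fun m _ => ?_
  unfold FT
  rw [← integral_const_mul]
  congr 1
  funext x
  unfold ee
  rw [← Complex.exp_add]
  congr 1
  have hq0' : (q : ℂ) ≠ 0 := by exact_mod_cast hq0
  have hp0' : (p : ℂ) ≠ 0 := by exact_mod_cast hp0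
  push_cast
  field_simp
  ring

theorem FT_lim (h : Adm p q) {μ : Measure ℝ} [IsProbabilityMeasure μ] (hμ : SelfSim p q μ)
    (ξ : ℝ) : Tendsto (fun k => ∏ j ∈ Finset.range k, D ((Sb h).n j) (ξ / (Sb h).b j)) atTop
      (𝓝 (FT μ ξ)) := by
  have hq := h.hq
  have hlt := h.hlt
  have hp0 : (p : ℝ) ≠ 0 := by
    have : p ≠ 0 := by omega
    exact_mod_cast this
  have hp1 : (1 : ℝ) < p := by exact_mod_cast (by omega : 1 < p)
  have h1 : ∀ k, FT μ ξ = (∏ j ∈ Finset.range k, D ((Sb h).n j) (ξ / (Sb h).b j))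
      * FT μ (ξ / p ^ k) := by
    intro k
    induction k with
    | zero => simp
    | succ k ih =>
      rw [Finset.prod_range_succ, mul_assoc, ih, FT_self h hμ (ξ / p ^ k)]
      congr 2
      · change D q (ξ / p ^ k / q) = D q (ξ / ((q * p ^ k : ℕ) : ℝ))
        congr 1
        push_cast
        rw [div_div, mul_comm]
      · congr 1
        rw [div_div, pow_succ]
  have h2 : Tendsto (fun k : ℕ => FT μ (ξ / p ^ k)) atTop (𝓝 1) := by
    have h3 : Tendsto (fun k : ℕ => ξ / (p : ℝ) ^ k) atTop (𝓝 0) := by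
      have := (tendsto_pow_atTop_atTop_of_one_lt hp1).inv_tendsto_atTop.const_mul ξ
      rw [mul_zero] at this
      exact this
    have h4 := ((FT_cont μ).tendsto 0).comp h3
    rwa [FT_zero] at h4
  have h5 := h2.inv₀ one_ne_zero
  have h6 := h5.const_mul (FT μ ξ)
  rw [inv_one, mul_one] at h6
  refine h6.congr' ?_
  have h7 : ∀ᶠ k : ℕ in atTop, FT μ (ξ / p ^ k) ≠ 0 := h2.eventually_ne one_ne_zero
  filter_upwards [h7] with k hk
  rw [h1 k, mul_assoc, mul_inv_cancel₀ hk, mul_one]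

theorem LamB_spectrum (h : Adm p q) {μ : Measure ℝ} [IsProbabilityMeasure μ]
    (hμ : SelfSim p q μ) (ρ : ℝ) : IsSpectrum μ (LamB h ρ) := by
  have hP := pars_of_tree (CB h ρ) 0 μ (FT_lim h hμ) (goodB h ρ)
  exact spectrum_of_parseval μ _ hP.hc hP.h hP.hp

theorem main (h : Adm p q) {μ : Measure ℝ} [IsProbabilityMeasure μ]
    (hμ : SelfSim p q μ) (d : ℝ) (hd0 : 0 ≤ d)
    (hd1 : d ≤ (2 * ((p : ℝ) - 1) / ((q : ℝ) - 1)) ^ (Real.log q / Real.log p)) :
    ∃ Λ : Set ℝ, IsSpectrum μ Λ ∧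
      upperBeurling (Real.log q / Real.log p) Λ = ENNReal.ofReal d := by
  have es : Real.log q / Real.log p = 1 / tt p q := by
    unfold tt
    rw [one_div, inv_div]
  have ec : 2 * ((p : ℝ) - 1) / ((q : ℝ) - 1) = 2 * cc p q := by unfold cc; ring
  rw [ec, es] at hd1
  rw [es]
  have hM : 0 < (2 * cc p q) ^ (1 / tt p q) := by
    have := cc_pos h
    positivity
  have h0 : 0 ≤ d / (2 * cc p q) ^ (1 / tt p q) := by positivity
  have h1 : d / (2 * cc p q) ^ (1 / tt p q) ≤ 1 := by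
    rw [div_le_one hM]; exact hd1
  refine ⟨LamB h (d / (2 * cc p q) ^ (1 / tt p q)), LamB_spectrum h hμ _, ?_⟩
  have h2 := le_antisymm (upper_le h h0) (lower_ge h h0 h1)
  rw [h2, div_mul_cancel₀ _ hM.ne']

end Pool.Agent.Q83.Beu
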