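import Pool.Agent.Q83.Beu.Dens

/-! The Beurling density of the spectrum: limits. -/

set_option autoImplicit false

open Finset Pool.Agent.Q83.Tree Filter Topology
open scoped ENNReal

namespace Pool.Agent.Q83.Beu

variable {p q : ℕ}

theorem cc_pos (h : Adm p q) : 0 < cc p q := by
  have h1 := h.hq
  have h2 := h.hlt
  unfold cc
  have hq1 : (1 : ℝ) < q := by exact_mod_cast (by omega : 1 < q)
  have hp1 : (1 : ℝ) < p := by exact_mod_cast (by omega : 1 < p)
  exact div_pos (by linarith) (by linarith)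

theorem s_pos (h : Adm p q) : 0 < 1 / tt p q := by
  have := tt_one h.hq h.hlt
  positivity

theorem p_s (h : Adm p q) : (p : ℝ) ^ (1 / tt p q) = q := by
  have h1 := tt_one h.hq h.hlt
  rw [← q_tt h.hq h.hlt, ← Real.rpow_mul (by positivity), mul_one_div_cancel (by linarith),
    Real.rpow_one]

theorem pk_s (h : Adm p q) (k : ℕ) : ((p : ℝ) ^ k) ^ (1 / tt p q) = (q : ℝ) ^ k := by
  rw [← Real.rpow_natCast, ← Real.rpow_mul (by positivity), mul_comm, Real.rpow_mul (by positivity),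
    p_s h, Real.rpow_natCast]

theorem log_part {s : ℝ} (hs : 0 < s) :
    Tendsto (fun H : ℝ => (Real.logb 2 (2 * H) + 3) / H ^ s) atTop (𝓝 0) := by
  have h1 : Tendsto (fun H : ℝ => Real.log H / H ^ s) atTop (𝓝 0) :=
    (isLittleO_log_rpow_atTop hs).tendsto_div_nhds_zero
  have h2 : Tendsto (fun H : ℝ => (H ^ s)⁻¹) atTop (𝓝 0) :=
    (tendsto_rpow_atTop hs).inv_tendsto_atTop
  have h3 := (h1.const_mul (1 / Real.log 2)).add (h2.const_mul 4)
  rw [mul_zero, mul_zero, add_zero] at h3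
  refine h3.congr' ?_
  filter_upwards [eventually_gt_atTop 0] with H hH
  have hl : Real.log 2 ≠ 0 := (Real.log_pos (by norm_num)).ne'
  have : Real.logb 2 (2 * H) = 1 + Real.log H / Real.log 2 := by
    unfold Real.logb
    rw [Real.log_mul (by norm_num) hH.ne']
    field_simp
  rw [this]
  ring

theorem main_part (h : Adm p q) (k : ℕ) :
    Tendsto (fun H : ℝ => (cc p q * (2 * H / p ^ k) + 1) ^ (1 / tt p q) / H ^ (1 / tt p q)) atTop
      (𝓝 ((2 * cc p q) ^ (1 / tt p q) / q ^ k)) := by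
  have hc := cc_pos h
  have hp : (0 : ℝ) < (p : ℝ) ^ k := by
    have := h.hlt
    have : 0 < p := by omega
    positivity
  have h1 : Tendsto (fun H : ℝ => 2 * cc p q / p ^ k + H⁻¹) atTop (𝓝 (2 * cc p q / p ^ k + 0)) :=
    tendsto_const_nhds.add tendsto_inv_atTop_zero
  rw [add_zero] at h1
  have h2 := h1.rpow_const (p := 1 / tt p q) (Or.inr (s_pos h).le)
  have e : (2 * cc p q / p ^ k) ^ (1 / tt p q) = (2 * cc p q) ^ (1 / tt p q) / q ^ k := by
    rw [Real.div_rpow (by positivity) (by positivity), pk_s h]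
  rw [e] at h2
  refine h2.congr' ?_
  filter_upwards [eventually_gt_atTop 0] with H hH
  rw [← Real.div_rpow (by positivity) hH.le]
  congr 1
  field_simp

theorem upper_le (h : Adm p q) {ρ : ℝ} (h0 : 0 ≤ ρ) :
    upperBeurling (1 / tt p q) (LamB h ρ) ≤ ENNReal.ofReal (ρ * (2 * cc p q) ^ (1 / tt p q)) := by
  have hq2 := h.hq
  have hs := s_pos h
  have hk : ∀ k : ℕ, upperBeurling (1 / tt p q) (LamB h ρ)
      ≤ ENNReal.ofReal ((ρ * q ^ k + 1) * ((2 * cc p q) ^ (1 / tt p q) / q ^ k) + 0) := by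
    intro k
    have h1 := ((main_part h k).const_mul (ρ * q ^ k + 1)).add (log_part hs)
    have h2 := (ENNReal.continuous_ofReal.tendsto _).comp h1
    rw [← h2.limsup_eq]
    unfold upperBeurling
    refine limsup_le_limsup ?_
    filter_upwards [eventually_ge_atTop 1] with H hH
    have hpos : 0 < H ^ (1 / tt p q) := by positivity
    rw [Function.comp_apply]
    have e : (ρ * q ^ k + 1) * ((cc p q * (2 * H / p ^ k) + 1) ^ (1 / tt p q) / H ^ (1 / tt p q))
        + (Real.logb 2 (2 * H) + 3) / H ^ (1 / tt p q)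
        = ((ρ * q ^ k + 1) * (cc p q * (2 * H / p ^ k) + 1) ^ (1 / tt p q)
          + (Real.logb 2 (2 * H) + 3)) / H ^ (1 / tt p q) := by ring
    rw [e, ENNReal.ofReal_div_of_pos hpos]
    exact ENNReal.div_le_div_right (sup_le h h0 hH k) _
  have hlim : Tendsto (fun k : ℕ => ENNReal.ofReal
      ((ρ * q ^ k + 1) * ((2 * cc p q) ^ (1 / tt p q) / q ^ k) + 0)) atTop
      (𝓝 (ENNReal.ofReal (ρ * (2 * cc p q) ^ (1 / tt p q)))) := by
    refine (ENNReal.continuous_ofReal.tendsto _).comp ?_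
    have hq1 : (1 : ℝ) < q := by exact_mod_cast (by omega : 1 < q)
    have h1 : Tendsto (fun k : ℕ => ((q : ℝ) ^ k)⁻¹) atTop (𝓝 0) :=
      (tendsto_pow_atTop_atTop_of_one_lt hq1).inv_tendsto_atTop
    have h2 := (tendsto_const_nhds (x := ρ)).add h1
    rw [add_zero] at h2
    have h3 := h2.mul_const ((2 * cc p q) ^ (1 / tt p q))
    refine h3.congr fun k => ?_
    have : (q : ℝ) ^ k ≠ 0 := by positivity
    field_simp
    ring
  exact ge_of_tendsto' hlim hk

theorem encard_ge (h : Adm p q) {ρ : ℝ} (h0 : 0 ≤ ρ) (h1 : ρ ≤ 1) (k : ℕ) {H : ℝ}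
    (hH : (can p q (q ^ k - 1) : ℝ) / 2 < H) :
    ENNReal.ofReal (ρ * q ^ k)
      ≤ ⨆ x : ℝ, ((LamB h ρ ∩ Set.Ioo (x - H) (x + H)).encard : ℝ≥0∞) := by
  have hq := h.hq
  refine le_trans ?_ (le_iSup _ ((can p q (q ^ k - 1) : ℝ) / 2))
  rw [LamB_inter]
  set A := (range (q ^ k)).filter (fun a => rad q a < ρ) with hA
  have hmono := can_mono (p := p) hq h.hlt.le
  have hcard : ((A.image (fun n => (can p q n : ℤ))).card : ℝ) = A.card := by
    rw [card_image_of_injective]
    intro a b hab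
    have hab' : (can p q a : ℤ) = can p q b := hab
    have : can p q a = can p q b := by exact_mod_cast hab'
    exact hmono.injective this
  have hsub : ((A.image (fun n => (can p q n : ℤ)) : Finset ℤ) : Set ℤ) ⊆
      {y : ℤ | y ∈ YY (CB h ρ) 0 ∧ (can p q (q ^ k - 1) : ℝ) / 2 - H < y ∧
        (y : ℝ) < (can p q (q ^ k - 1) : ℝ) / 2 + H} := by
    intro y hy
    rw [mem_coe, mem_image] at hy
    obtain ⟨n, hn, rfl⟩ := hy
    rw [hA, mem_filter, mem_range] at hn
    have h2 : can p q n ≤ can p q (q ^ k - 1) := hmono.monotone (by omega)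
    have h3 : (can p q n : ℝ) ≤ can p q (q ^ k - 1) := by exact_mod_cast h2
    have h4 : (0 : ℝ) ≤ can p q n := by positivity
    refine ⟨⟨k, can_mem h ρ k n hn.1 hn.2⟩, ?_, ?_⟩
    · rw [Int.cast_natCast]; linarith
    · rw [Int.cast_natCast]; linarith
  have h2 := Set.encard_le_encard hsub
  rw [Set.encard_coe_eq_coe_finsetCard] at h2
  have h3 : ENNReal.ofReal (ρ * q ^ k)
      ≤ (((A.image (fun n => (can p q n : ℤ))).card : ℕ∞) : ℝ≥0∞) := by
    have : (((A.image (fun n => (can p q n : ℤ))).card : ℕ∞) : ℝ≥0∞)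
        = ENNReal.ofReal ((A.image (fun n => (can p q n : ℤ))).card : ℝ) := by
      rw [ENNReal.ofReal_natCast]
      rfl
    rw [this, hcard]
    exact ENNReal.ofReal_le_ofReal ((card_rad hq h0 k).2 h1)
  exact h3.trans (by exact_mod_cast h2)

theorem top_eq (h : Adm p q) (k : ℕ) :
    cc p q * (can p q (q ^ k - 1) : ℝ) = (p : ℝ) ^ k - 1 := by
  have h1 := can_top (p := p) h.hq k
  have hq1 : (1 : ℝ) < q := by exact_mod_cast (by have := h.hq; omega : 1 < q)
  have h2 : ((p : ℝ) - 1) * can p q (q ^ k - 1) + (q - 1) = (q - 1) * (p : ℝ) ^ k := by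
    exact_mod_cast h1
  unfold cc
  have : (q : ℝ) - 1 ≠ 0 := by linarith
  field_simp
  linarith

theorem lower_ge (h : Adm p q) {ρ : ℝ} (h0 : 0 ≤ ρ) (h1 : ρ ≤ 1) :
    ENNReal.ofReal (ρ * (2 * cc p q) ^ (1 / tt p q)) ≤ upperBeurling (1 / tt p q) (LamB h ρ) := by
  have hs := s_pos h
  have hc := cc_pos h
  have hp1 : (1 : ℝ) < p := by exact_mod_cast (by have := h.hq; have := h.hlt; omega : 1 < p)
  set u : ℕ → ℝ := fun k => (p : ℝ) ^ k / (2 * cc p q) + 1 with hu
  have htop : Tendsto u atTop atTop := by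
    refine tendsto_atTop_add_const_right _ _ ?_
    exact (tendsto_pow_atTop_atTop_of_one_lt hp1).atTop_div_const (by positivity)
  have hle : ∀ k, ENNReal.ofReal (ρ * (q : ℝ) ^ k / u k ^ (1 / tt p q))
      ≤ (⨆ x : ℝ, ((LamB h ρ ∩ Set.Ioo (x - u k) (x + u k)).encard : ℝ≥0∞))
    / ENNReal.ofReal (u k ^ (1 / tt p q)) := by
    intro k
    have hupos : 0 < u k := by positivity
    rw [ENNReal.ofReal_div_of_pos (by positivity)]
    refine ENNReal.div_le_div_right (encard_ge h h0 h1 k ?_) _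
    have h2 := top_eq h k
    have h3 : (can p q (q ^ k - 1) : ℝ) = ((p : ℝ) ^ k - 1) / cc p q := by
      rw [eq_div_iff hc.ne']; linarith
    rw [h3, hu]
    have h4 : ((p : ℝ) ^ k - 1) / cc p q / 2 = (p : ℝ) ^ k / (2 * cc p q) - 1 / (2 * cc p q) := by
      field_simp
    have h5 : 0 < 1 / (2 * cc p q) := by positivity
    simp only
    rw [h4]
    linarith
  have hlim : Tendsto (fun k : ℕ => ENNReal.ofReal (ρ * (q : ℝ) ^ k / u k ^ (1 / tt p q))) atTop
      (𝓝 (ENNReal.ofReal (ρ * (2 * cc p q) ^ (1 / tt p q)))) := by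
    refine (ENNReal.continuous_ofReal.tendsto _).comp ?_
    have h2 : Tendsto (fun k : ℕ => ((p : ℝ) ^ k)⁻¹) atTop (𝓝 0) :=
      (tendsto_pow_atTop_atTop_of_one_lt hp1).inv_tendsto_atTop
    have h3 := (tendsto_const_nhds (x := 1 / (2 * cc p q))).add h2
    rw [add_zero] at h3
    have h4 := h3.rpow_const (p := 1 / tt p q) (Or.inr hs.le)
    have h5 : (1 / (2 * cc p q)) ^ (1 / tt p q) ≠ 0 := by positivity
    have h6 := (tendsto_const_nhds (x := ρ)).div h4 h5
    have e : ρ / (1 / (2 * cc p q)) ^ (1 / tt p q) = ρ * (2 * cc p q) ^ (1 / tt p q) := by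
      rw [one_div, Real.inv_rpow (by positivity), div_inv_eq_mul]
    rw [e] at h6
    refine h6.congr fun k => ?_
    have hpk : (0 : ℝ) < (p : ℝ) ^ k := by positivity
    have e2 : u k = (p : ℝ) ^ k * (1 / (2 * cc p q) + ((p : ℝ) ^ k)⁻¹) := by
      rw [hu]; field_simp
    rw [Pi.div_apply, e2, Real.mul_rpow (by positivity) (by positivity), pk_s h]
    have hq0 : (q : ℝ) ^ k ≠ 0 := by
      have := h.hq
      positivity
    rw [mul_comm ρ, mul_div_mul_left _ _ hq0]
  unfold upperBeurling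
  rw [← hlim.limsup_eq]
  refine (limsup_le_limsup (Eventually.of_forall hle)).trans ?_
  have : limsup (fun k : ℕ => (⨆ x : ℝ, ((LamB h ρ ∩ Set.Ioo (x - u k) (x + u k)).encard : ℝ≥0∞))
      / ENNReal.ofReal (u k ^ (1 / tt p q))) atTop
      = limsup (fun H : ℝ => (⨆ x : ℝ, ((LamB h ρ ∩ Set.Ioo (x - H) (x + H)).encard : ℝ≥0∞))
      / ENNReal.ofReal (H ^ (1 / tt p q))) (map u atTop) := rfl
  rw [this]
  exact limsup_le_limsup_of_le htop

end Pool.Agent.Q83.Beu
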