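import Pool.Agent.Q83.Tree.Low

/-! Another lower bound for the Dirichlet kernel. -/

set_option autoImplicit false

open Finset

namespace Pool.Agent.Q83.Tree

theorem norm_D_ge' {n : ℕ} (hn : 0 < n) {θ : ℝ} (h : |n * θ| ≤ 3 / 4) :
    1 / 25 ≤ ‖D n θ‖ ^ 2 := by
  have hnr : (0 : ℝ) < n := by exact_mod_cast hn
  have hnc : (n : ℂ) ≠ 0 := by exact_mod_cast hn.ne'
  rcases eq_or_ne θ 0 with rfl | hθ
  · have : D n 0 = 1 := by
      unfold D
      simp
      field_simp
    rw [this]; norm_num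
  have hpi := Real.pi_pos
  have h1 := geom_aux n θ
  have h2 : ∑ j ∈ range n, Complex.exp (2 * Real.pi * Complex.I * j * θ) = n * D n θ := by
    unfold D
    rw [mul_inv_cancel_left₀ hnc]
  rw [h2] at h1
  have h3 := congrArg norm h1
  rw [norm_mul, norm_mul, Complex.norm_natCast] at h3
  have e1 : (2 * Real.pi * Complex.I * θ : ℂ) = Complex.I * ((2 * Real.pi * θ : ℝ) : ℂ) := by
    push_cast; ring
  have e2 : (2 * Real.pi * Complex.I * n * θ : ℂ) = Complex.I * ((2 * Real.pi * (n * θ) : ℝ) : ℂ) := by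
    push_cast; ring
  have h4 : ‖Complex.exp (2 * Real.pi * Complex.I * θ) - 1‖ ≤ 2 * Real.pi * |θ| := by
    rw [e1]
    refine (Real.norm_exp_I_mul_ofReal_sub_one_le).trans ?_
    rw [Real.norm_eq_abs, abs_mul, abs_of_pos (by positivity : (0 : ℝ) < 2 * Real.pi)]
  have h5 : ‖Complex.exp (2 * Real.pi * Complex.I * n * θ) - 1‖
      = 2 * |Real.sin (Real.pi * (n * θ))| := by
    rw [e2, Complex.norm_exp_I_mul_ofReal_sub_one, Real.norm_eq_abs, abs_mul, abs_two]
    congr 3
    ring
  rw [h5] at h3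
  -- lower bound of the sine
  set u : ℝ := Real.pi * |n * θ| with hu
  have hu0 : 0 < u := by
    have : 0 < |(n : ℝ) * θ| := abs_pos.2 (mul_ne_zero hnr.ne' hθ)
    positivity
  have hu1 : u ≤ 3 * Real.pi / 4 := by nlinarith
  have h6 : |Real.sin (Real.pi * (n * θ))| = |Real.sin u| := by
    rcases abs_cases ((n : ℝ) * θ) with ⟨h, -⟩ | ⟨h, -⟩
    · rw [hu, h]
    · rw [hu, h]
      have : Real.pi * -(n * θ) = -(Real.pi * (n * θ)) := by ring
      rw [this, Real.sin_neg, abs_neg]
  have h7 : u / 5 ≤ |Real.sin u| := by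
    have hp := Real.pi_lt_d2
    rcases le_total u (Real.pi / 2) with hle | hle
    · have := Real.mul_le_sin hu0.le hle
      refine le_trans ?_ (le_abs_self _)
      refine le_trans ?_ this
      have : 1 / 5 ≤ 2 / Real.pi := by
        rw [div_le_div_iff₀ (by norm_num) hpi]; linarith
      nlinarith
    · have := Real.mul_le_sin (x := Real.pi - u) (by linarith) (by linarith)
      rw [Real.sin_pi_sub] at this
      refine le_trans ?_ (le_abs_self _)
      refine le_trans ?_ this
      have h8 : 1 / 2 ≤ 2 / Real.pi * (Real.pi - u) := by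
        have : 2 / Real.pi * (Real.pi / 4) = 1 / 2 := by field_simp; norm_num
        rw [← this]
        exact mul_le_mul_of_nonneg_left (by linarith) (by positivity)
      nlinarith
  rw [h6] at h3
  have h9 : 2 * (u / 5) ≤ 2 * Real.pi * |θ| * (n * ‖D n θ‖) := by
    calc 2 * (u / 5) ≤ 2 * |Real.sin u| := by linarith
      _ = ‖Complex.exp (2 * Real.pi * Complex.I * θ) - 1‖ * (n * ‖D n θ‖) := h3.symm
      _ ≤ _ := mul_le_mul_of_nonneg_right h4 (by positivity)
  have h10 : u = Real.pi * (n * |θ|) := by rw [hu, abs_mul, abs_of_pos hnr]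
  have h11 : 1 / 5 ≤ ‖D n θ‖ := by
    rw [h10] at h9
    have hpos : 0 < Real.pi * (n * |θ|) := by
      rw [← h10]; exact hu0
    have : Real.pi * (n * |θ|) * (1 / 5) ≤ Real.pi * (n * |θ|) * ‖D n θ‖ := by linarith
    exact le_of_mul_le_mul_left this hpos
  nlinarith

end Pool.Agent.Q83.Tree
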