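import Pool.Agent.Q83.Beu.Can
import Pool.Agent.Q83.Beu.Low2

/-! The tree of targets with sparse shifts. -/

set_option autoImplicit false

open Finset Pool.Agent.Q83.Tree

namespace Pool.Agent.Q83.Beu

/-- admissible parameters -/
structure Adm (p q : ℕ) : Prop where
  hq : 2 ≤ q
  hd : q ∣ p
  hlt : q < p

variable {p q : ℕ}

theorem Adm.two (h : Adm p q) : 2 * q ≤ p := by
  obtain ⟨k, hk⟩ := h.hd
  have h1 := h.hlt
  have h2 := h.hq
  have : 2 ≤ k := by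
    by_contra hc
    push Not at hc
    have : k ≤ 1 := by omega
    have := Nat.mul_le_mul_left q this
    omega
  have := Nat.mul_le_mul_left q this
  linarith

/-- the scale -/
def Sb (h : Adm p q) : Scale where
  a j := p ^ j
  b j := q * p ^ j
  n _ := q
  apos j := Nat.pow_pos (by have := h.two; have := h.hq; omega)
  hn _ := h.hq
  hb _ := rfl
  hdvd j := by rw [pow_succ, mul_comm]; exact Nat.mul_dvd_mul_left _ h.hd
  h2 j := by
    have := Nat.mul_le_mul_right (p ^ j) h.two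
    rw [pow_succ]
    linarith

/-- shift exponents -/
def sh (j : ℕ) (y : ℤ) (m : ℕ) : ℕ := Nat.pair (j + 1) (Encodable.encode (y, m))

theorem sh_ge (j : ℕ) (y : ℤ) (m : ℕ) : j + 1 ≤ sh j y m := Nat.left_le_pair _ _

theorem sh_inj {j j' : ℕ} {y y' : ℤ} {m m' : ℕ} (h : sh j y m = sh j' y' m') :
    j = j' ∧ y = y' ∧ m = m' := by
  unfold sh at h
  rw [Nat.pair_eq_pair] at h
  have h2 := Encodable.encode_injective h.2
  simp only [Prod.mk.injEq] at h2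
  exact ⟨by omega, h2⟩

/-- far targets -/
def far (p q : ℕ) (j : ℕ) (y : ℤ) (m : ℕ) : ℤ :=
  y % (q * p ^ j) + m * p ^ j + q * p ^ sh j y m

open Classical in
/-- the child function -/
noncomputable def RB (p q : ℕ) (ρ : ℝ) (j : ℕ) (y : ℤ) (m : ℕ) : ℤ :=
  if m = 0 then y
  else if ∃ n < q ^ j, y = can p q n ∧ rad q (n + q ^ j * m) < ρ then y + m * p ^ j
  else far p q j y m

/-- the tree -/
noncomputable def CB (h : Adm p q) (ρ : ℝ) : Child (Sb h) where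
  R := RB p q ρ
  R0 j y := by unfold RB; rw [if_pos rfl]
  Rm j y m := by
    change ((q * p ^ j : ℕ) : ℤ) ∣ RB p q ρ j y m - (y + m * ((p ^ j : ℕ) : ℤ))
    unfold RB
    push_cast
    split_ifs with h1 h2
    · subst h1; simp
    · simp
    · unfold far
      have e : y % (q * p ^ j) + m * p ^ j + q * p ^ sh j y m - (y + m * p ^ j)
          = (y % (q * p ^ j) - y) + q * p ^ sh j y m := by ring
      rw [e]
      refine dvd_add ?_ ?_
      · have := Int.emod_add_mul_ediv y (q * p ^ j)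
        exact ⟨-(y / (q * p ^ j)), by linarith⟩
      · exact mul_dvd_mul_left _ (pow_dvd_pow _ ((Nat.le_succ j).trans (sh_ge j y m)))

/-- small targets -/
def Sm (p : ℕ) (j : ℕ) (y : ℤ) : Prop := 0 ≤ y ∧ 3 * y ≤ 2 * (p : ℤ) ^ j

/-- targets with a pending shift -/
def Fm (p q : ℕ) (j : ℕ) (y : ℤ) : Prop :=
  ∃ c : ℤ, ∃ L, j ≤ L ∧ Sm p j c ∧ y = c + q * p ^ L

theorem Sm_can (h : Adm p q) {j n : ℕ} (hn : n < q ^ j) : Sm p j (can p q n) := by
  have h1 := can_bound h.hq (by have := h.hlt; omega : 1 ≤ p) j n hn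
  have h2 := h.two
  have h3 := h.hq
  refine ⟨by positivity, ?_⟩
  have h4 : (2 : ℤ) * q ≤ p := by exact_mod_cast h2
  have h5 : (2 : ℤ) ≤ q := by exact_mod_cast h3
  have h6 : (0 : ℤ) < (p : ℤ) ^ j := by
    have : 0 < p := by omega
    positivity
  have h7 : ((p : ℤ) - 1) * (3 * can p q n) ≤ ((p : ℤ) - 1) * (2 * p ^ j) := by nlinarith
  exact le_of_mul_le_mul_left h7 (by linarith)

theorem Sm_add (h : Adm p q) {j : ℕ} {y : ℤ} (hy : Sm p j y) {m : ℕ} (hm : m < q) :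
    Sm p (j + 1) (y + m * p ^ j) := by
  have h1 := h.two
  have h2 := h.hq
  have h4 : (2 : ℤ) * q ≤ p := by exact_mod_cast h1
  have h5 : (2 : ℤ) ≤ q := by exact_mod_cast h2
  have h6 : (0 : ℤ) < (p : ℤ) ^ j := by
    have : 0 < p := by omega
    positivity
  have h7 : (m : ℤ) + 1 ≤ q := by exact_mod_cast hm
  obtain ⟨h8, h9⟩ := hy
  refine ⟨by positivity, ?_⟩
  rw [pow_succ]
  nlinarith

theorem Sm_shift (h : Adm p q) {j : ℕ} {y : ℤ} (hy : Sm p j y) :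
    Sm p (j + 1) (y + q * p ^ j) := by
  have h1 := h.two
  have h2 := h.hq
  have h4 : (2 : ℤ) * q ≤ p := by exact_mod_cast h1
  have h5 : (2 : ℤ) ≤ q := by exact_mod_cast h2
  have h6 : (0 : ℤ) < (p : ℤ) ^ j := by
    have : 0 < p := by omega
    positivity
  obtain ⟨h8, h9⟩ := hy
  refine ⟨by positivity, ?_⟩
  rw [pow_succ]
  nlinarith

theorem Sm_mono (h : Adm p q) {j l : ℕ} (hjl : j ≤ l) {y : ℤ} (hy : Sm p j y) : Sm p l y := by
  have h1 := h.hlt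
  refine ⟨hy.1, hy.2.trans ?_⟩
  have : (p : ℤ) ^ j ≤ (p : ℤ) ^ l := pow_le_pow_right₀ (by exact_mod_cast (by omega : 1 ≤ p)) hjl
  linarith

theorem Sm_mod (h : Adm p q) {j : ℕ} {y : ℤ} (hy : Sm p j y ∨ Fm p q j y) :
    Sm p j (y % (q * p ^ j)) := by
  have h1 := h.two
  have h2 := h.hq
  have h5 : (2 : ℤ) ≤ q := by exact_mod_cast h2
  have h6 : (0 : ℤ) < (p : ℤ) ^ j := by
    have : 0 < p := by omega
    positivity
  rcases hy with hy | ⟨c, L, hL, hc, rfl⟩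
  · rw [Int.emod_eq_of_lt hy.1 (by nlinarith [hy.2])]
    exact hy
  · obtain ⟨d, rfl⟩ := Nat.exists_eq_add_of_le hL
    have e : (c + q * (p : ℤ) ^ (j + d)) = c + (q * p ^ j) * p ^ d := by rw [pow_add]; ring
    rw [e, Int.add_mul_emod_self_left, Int.emod_eq_of_lt hc.1 (by nlinarith [hc.2])]
    exact hc

theorem far_Fm (h : Adm p q) {j : ℕ} {y : ℤ} (hy : Sm p j y ∨ Fm p q j y) {m : ℕ} (hm : m < q) :
    Fm p q (j + 1) (far p q j y m) :=
  ⟨y % (q * p ^ j) + m * p ^ j, sh j y m, sh_ge j y m, Sm_add h (Sm_mod h hy) hm, rfl⟩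

theorem inv (h : Adm p q) (ρ : ℝ) (j : ℕ) : ∀ y ∈ TT (CB h ρ) 0 j, Sm p j y ∨ Fm p q j y := by
  induction j with
  | zero =>
    intro y hy
    simp only [TT, mem_singleton] at hy
    subst hy
    exact Or.inl ⟨le_rfl, by simp⟩
  | succ j ih =>
    intro y' hy'
    obtain ⟨y, hy, m, hm, rfl⟩ := (mem_TT_succ (CB h ρ) 0).1 hy'
    have hI := ih y hy
    change m < q at hm
    change Sm p (j + 1) (RB p q ρ j y m) ∨ Fm p q (j + 1) (RB p q ρ j y m)
    unfold RB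
    split_ifs with h1 h2
    · rcases hI with hI | ⟨c, L, hL, hc, rfl⟩
      · exact Or.inl (Sm_mono h (Nat.le_succ j) hI)
      · rcases hL.eq_or_lt with rfl | hL
        · exact Or.inl (Sm_shift h hc)
        · exact Or.inr ⟨c, L, hL, Sm_mono h (Nat.le_succ j) hc, rfl⟩
    · obtain ⟨n, hn, rfl, -⟩ := h2
      exact Or.inl (Sm_add h (Sm_can h hn) hm)
    · exact Or.inr (far_Fm h hI hm)

theorem V_small (h : Adm p q) (ρ : ℝ) {ξ : ℝ} {j : ℕ} {y : ℤ} (hy : Sm p j y)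
    (hξ : 100 * |ξ| ≤ (p : ℝ) ^ j) : 1 / 500 ≤ (sys (CB h ρ) 0 ξ).V j y := by
  have h1 := h.two
  have h2 := h.hq
  have hp4 : (4 : ℝ) ≤ p := by exact_mod_cast (by omega : 4 ≤ p)
  have hpj : (0 : ℝ) < (p : ℝ) ^ j := by positivity
  have hy0 : (0 : ℝ) ≤ y := by exact_mod_cast hy.1
  have hy1 : 3 * (y : ℝ) ≤ 2 * (p : ℝ) ^ j := by exact_mod_cast hy.2
  have ha : |(y : ℝ)| = y := abs_of_nonneg hy0
  rw [Sys.V_succ]
  have h3 : 1 / 25 ≤ (sys (CB h ρ) 0 ξ).w j y := by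
    change 1 / 25 ≤ ‖D q ((ξ - y) / ((q * p ^ j : ℕ) : ℝ))‖ ^ 2
    refine norm_D_ge' (by omega) ?_
    have hq0 : (q : ℝ) ≠ 0 := by positivity
    have e : (q : ℝ) * ((ξ - y) / ((q * p ^ j : ℕ) : ℝ)) = (ξ - y) / (p : ℝ) ^ j := by
      push_cast
      field_simp
    rw [e, abs_div, abs_of_pos hpj, div_le_iff₀ hpj]
    have := abs_sub ξ (y : ℝ)
    linarith
  have h4 : 1 / 20 ≤ (sys (CB h ρ) 0 ξ).V (j + 1) y := by
    have e : ((Sb h).a (j + 1) : ℝ) = (p : ℝ) ^ j * p := by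
      change ((p ^ (j + 1) : ℕ) : ℝ) = _
      push_cast
      rw [pow_succ]
    refine V_settled (CB h ρ) 0 ?_ ?_
    · rw [e, ha]
      nlinarith
    · rw [e]
      nlinarith
  have h5 := (sys (CB h ρ) 0 ξ).w0 j y
  calc (1 / 500 : ℝ) = 1 / 25 * (1 / 20) := by norm_num
    _ ≤ _ := mul_le_mul h3 h4 (by norm_num) h5

theorem V_far (h : Adm p q) (ρ : ℝ) {ξ : ℝ} {j : ℕ} {y : ℤ} (hy : Fm p q j y)
    (hξ : 100 * |ξ| ≤ (p : ℝ) ^ j) : 1 / 250000 ≤ (sys (CB h ρ) 0 ξ).V j y := by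
  obtain ⟨c, L, hL, hc, hyc⟩ := hy
  have h1 := h.two
  have h2 := h.hq
  have hp1 : (1 : ℝ) ≤ p := by exact_mod_cast (by omega : 1 ≤ p)
  obtain ⟨d, rfl⟩ := Nat.exists_eq_add_of_le hL
  rw [Sys.V_mul _ j (d + 1)]
  have h3 : (sys (CB h ρ) 0 ξ).WW j (d + 1) y = (sys (CB h ρ) 0 ξ).WW j (d + 1) c := by
    unfold Sys.WW
    refine prod_congr rfl fun i hi => ?_
    have hi' := mem_range.1 hi
    change wt (Sb h) ξ (j + i) y = wt (Sb h) ξ (j + i) c
    refine wt_congr ξ ?_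
    change ((q * p ^ (j + i) : ℕ) : ℤ) ∣ y - c
    rw [hyc]
    push_cast
    have e : c + q * (p : ℤ) ^ (j + d) - c = q * (p : ℤ) ^ (j + d) := by ring
    rw [e]
    exact mul_dvd_mul_left _ (pow_dvd_pow _ (by omega))
  rw [h3]
  have h4 : 1 / 500 ≤ (sys (CB h ρ) 0 ξ).WW j (d + 1) c :=
    (V_small h ρ hc hξ).trans (Sys.V_le_WW _ _ _ _)
  have h5 : 1 / 500 ≤ (sys (CB h ρ) 0 ξ).V (j + (d + 1)) y := by
    refine V_small h ρ ?_ (hξ.trans (pow_le_pow_right₀ hp1 (by omega)))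
    rw [hyc]
    have := Sm_shift h (Sm_mono h (by omega : j ≤ j + d) hc)
    rwa [add_assoc] at this
  calc (1 / 250000 : ℝ) = 1 / 500 * (1 / 500) := by norm_num
    _ ≤ _ := mul_le_mul h4 h5 (by norm_num) ((sys (CB h ρ) 0 ξ).WW_nonneg _ _ _)

theorem goodB (h : Adm p q) (ρ : ℝ) (ξ : ℝ) : ∃ δ : ℝ, 0 < δ ∧ ∃ j0, ∀ j, j0 ≤ j →
    ∀ y ∈ TT (CB h ρ) 0 j, (sys (CB h ρ) 0 ξ).Good δ j y := by
  obtain ⟨M, hM⟩ := exists_nat_ge (100 * |ξ|)
  have h1 := h.two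
  have h2 := h.hq
  refine ⟨1 / 250000, by norm_num, M, fun j hj y hy => Sys.Good.base j y ?_⟩
  have hξ : 100 * |ξ| ≤ (p : ℝ) ^ j := by
    refine hM.trans ?_
    have h3 : j < p ^ j := Nat.lt_pow_self (by omega)
    exact_mod_cast hj.trans h3.le
  rcases inv h ρ j y hy with h3 | h3
  · exact le_trans (by norm_num) (V_small h ρ h3 hξ)
  · exact V_far h ρ h3 hξ

end Pool.Agent.Q83.Beu
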